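import Mathlib

namespace Pool.Agent.Results.MP_b39627_an.Yes

open Finset Filter Topology

/-- the closed nonnegative orthant -/
def O (m : ℕ) : Set (Fin m → ℝ) := {x | ∀ i, 0 ≤ x i}

/-- increasing in each variable on the orthant -/
def Inc {m : ℕ} (f : (Fin m → ℝ) → ℝ) : Prop :=
  ∀ x ∈ O m, ∀ (i : Fin m) (t : ℝ), x i ≤ t → f x ≤ f (Function.update x i t)

lemma mono_of_inc {m : ℕ} {f : (Fin m → ℝ) → ℝ} (h : Inc f) {x y : Fin m → ℝ} (hx : x ∈ O m)
    (hxy : x ≤ y) : f x ≤ f y := by
  classical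
  have : ∀ s : Finset (Fin m), f x ≤ f (s.piecewise y x) := by
    intro s
    induction s using Finset.induction_on with
    | empty => simp
    | insert i s hi ih =>
      rw [Finset.piecewise_insert]
      refine ih.trans (h _ (fun j => ?_) i _ ?_)
      · by_cases hj : j ∈ s
        · rw [Finset.piecewise_eq_of_mem _ _ _ hj]; exact (hx j).trans (hxy j)
        · rw [Finset.piecewise_eq_of_notMem _ _ _ hj]; exact hx j
      · rw [Finset.piecewise_eq_of_notMem _ _ _ hi]; exact hxy i
  simpa using this Finset.univ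

def P (m : ℕ) (C : ℝ) : Set (Fin m → ℝ) := {p | (∀ i, 0 < p i) ∧ ∏ i, p i = C}

noncomputable def g {m : ℕ} (C : ℝ) (q : Fin m → ℝ) : ℝ := sInf ((fun p => ∑ i, p i * q i) '' P m C)

lemma P_mem {m : ℕ} {C : ℝ} (hC : 0 < C) (i : Fin m) {e : ℝ} (he : 0 < e) :
    Function.update (fun _ => e) i (C / e ^ (m - 1)) ∈ P m C := by
  refine ⟨fun j => ?_, ?_⟩
  · by_cases h : j = i
    · subst h; simp; positivity
    · simp [h, he]
  · rw [Finset.prod_update_of_mem (Finset.mem_univ i)]
    simp [Finset.card_univ_diff]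
    field_simp

lemma g_le {m : ℕ} {C : ℝ} {q : Fin m → ℝ} (hq : q ∈ O m) {p : Fin m → ℝ} (hp : p ∈ P m C) :
    g C q ≤ ∑ i, p i * q i := by
  refine csInf_le ⟨0, ?_⟩ ⟨p, hp, rfl⟩
  rintro _ ⟨r, hr, rfl⟩
  exact Finset.sum_nonneg fun i _ => mul_nonneg (hr.1 i).le (hq i)

lemma le_g {m : ℕ} [NeZero m] {C : ℝ} (hC : 0 < C) {q : Fin m → ℝ} {c : ℝ}
    (h : ∀ p ∈ P m C, c ≤ ∑ i, p i * q i) : c ≤ g C q := by
  refine le_csInf ⟨_, _, P_mem hC 0 one_pos, rfl⟩ ?_
  rintro _ ⟨r, hr, rfl⟩
  exact h r hr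

section
variable {m : ℕ} [NeZero m] {C : ℝ} (hC : 0 < C)
include hC

lemma g_nonneg {q : Fin m → ℝ} (hq : q ∈ O m) : 0 ≤ g C q :=
  le_g hC fun p hp => Finset.sum_nonneg fun i _ => mul_nonneg (hp.1 i).le (hq i)

lemma g_add {q r : Fin m → ℝ} (hq : q ∈ O m) (hr : r ∈ O m) : g C q + g C r ≤ g C (q + r) :=
  le_g hC fun p hp => by
    simp only [Pi.add_apply, mul_add, Finset.sum_add_distrib]
    exact add_le_add (g_le hq hp) (g_le hr hp)

lemma g_mono {q r : Fin m → ℝ} (hq : q ∈ O m) (h : q ≤ r) : g C q ≤ g C r :=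
  le_g hC fun p hp => (g_le hq hp).trans
    (Finset.sum_le_sum fun i _ => mul_le_mul_of_nonneg_left (h i) (hp.1 i).le)

lemma g_smul {q : Fin m → ℝ} (hq : q ∈ O m) {s : ℝ} (hs : 0 ≤ s) : s * g C q ≤ g C (s • q) :=
  le_g hC fun p hp => by
    have := mul_le_mul_of_nonneg_left (g_le hq hp) hs
    rw [Finset.mul_sum] at this
    exact this.trans (le_of_eq (Finset.sum_congr rfl fun i _ => by simp; ring))

lemma prod_ge (d : Fin m → ℝ) (h : ∀ q ∈ O m, g C q ≤ ∑ i, d i * q i) : C ≤ ∏ i, d i := by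
  have hd : ∀ i, 0 ≤ d i := fun i => by
    have hm : (Pi.single i 1 : Fin m → ℝ) ∈ O m := fun j => by
      by_cases e : j = i
      · subst e; simp
      · simp [e]
    have := (g_nonneg hC hm).trans (h _ hm)
    simpa [Pi.single_apply] using this
  by_contra hlt
  push Not at hlt
  have hc : Continuous fun t : ℝ => ∏ i, (1 + t) * (d i + t) := by fun_prop
  have h1 : ∀ᶠ t in 𝓝 (0 : ℝ), ∏ i, (1 + t) * (d i + t) < C :=
    hc.continuousAt.eventually_lt continuousAt_const (by simpa using hlt)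
  obtain ⟨t, ht, ht0⟩ := ((h1.filter_mono nhdsWithin_le_nhds).and
    (self_mem_nhdsWithin : Set.Ioi (0 : ℝ) ∈ 𝓝[>] 0)).exists
  have ht0 : 0 < t := ht0
  have hpos : ∀ i, 0 < d i + t := fun i => by linarith [hd i]
  have h2 := h (fun i => 1 / (d i + t)) fun i => by have := hpos i; positivity
  have h3 : ∑ i, d i * (1 / (d i + t)) ≤ ∑ _i : Fin m, (1 : ℝ) :=
    Finset.sum_le_sum fun i _ => by
      rw [mul_one_div, div_le_one (hpos i)]; linarith
  have h4 : (1 + t) * m ≤ g C (fun i : Fin m => 1 / (d i + t)) := by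
    refine le_g hC fun p hp => ?_
    have hz : ∀ i, 0 < p i / ((1 + t) * (d i + t)) := fun i => by
      have := hpos i; have := hp.1 i; positivity
    have a1 : 0 ≤ ∑ i, Real.log (p i / ((1 + t) * (d i + t))) := by
      rw [← Real.log_prod (fun i _ => (hz i).ne')]
      refine Real.log_nonneg ?_
      rw [Finset.prod_div_distrib, hp.2, le_div_iff₀ (Finset.prod_pos fun i _ => by
        have := hpos i; positivity)]
      linarith
    have a2 : ∑ i, Real.log (p i / ((1 + t) * (d i + t))) ≤ ∑ i, (p i / ((1 + t) * (d i + t)) - 1) :=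
      Finset.sum_le_sum fun i _ => Real.log_le_sub_one_of_pos (hz i)
    have a3 : ∑ i, p i * (1 / (d i + t)) = (1 + t) * ∑ i, p i / ((1 + t) * (d i + t)) := by
      rw [Finset.mul_sum]
      refine Finset.sum_congr rfl fun i _ => ?_
      have := hpos i
      field_simp
    rw [a3]
    rw [Finset.sum_sub_distrib] at a2
    simp only [Finset.sum_const, Finset.card_univ, Fintype.card_fin, nsmul_eq_mul, mul_one] at a2
    exact mul_le_mul_of_nonneg_left (by linarith) (by linarith)
  simp only [Finset.sum_const, Finset.card_univ, Fintype.card_fin, nsmul_eq_mul, mul_one] at h3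
  have hm : (0 : ℝ) < m := by exact_mod_cast Nat.pos_of_ne_zero (NeZero.ne m)
  nlinarith

end

def Cl {m : ℕ} (C : ℝ) (u : (Fin m → ℝ) → ℝ) : Set ((Fin m → ℝ) → ℝ) :=
  {v | (∀ x ∈ O m, 0 ≤ v x) ∧ ∀ x ∈ O m, ∀ q ∈ O m, min (v x + g C q) (u x) ≤ v (x + q)}

noncomputable def w {m : ℕ} (C : ℝ) (u : (Fin m → ℝ) → ℝ) (x : Fin m → ℝ) : ℝ :=
  sInf ((fun v => v x) '' Cl C u)

lemma O_add {m : ℕ} {x q : Fin m → ℝ} (hx : x ∈ O m) (hq : q ∈ O m) : x + q ∈ O m :=
  fun i => add_nonneg (hx i) (hq i)

lemma w_le {m : ℕ} {C : ℝ} {u v : (Fin m → ℝ) → ℝ} (hv : v ∈ Cl C u) {x : Fin m → ℝ} (hx : x ∈ O m) :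
    w C u x ≤ v x := by
  refine csInf_le ⟨0, ?_⟩ ⟨v, hv, rfl⟩
  rintro _ ⟨r, hr, rfl⟩
  exact hr.1 x hx

noncomputable def G {m : ℕ} (C : ℝ) (a y : Fin m → ℝ) (i : Fin m) : ℝ :=
  if a i ≤ y i then g C (Function.update y i (y i - a i)) else 0

section
variable {m : ℕ} [NeZero m] {C : ℝ} (hC : 0 < C) {u : (Fin m → ℝ) → ℝ} (hu : Inc u)
  (hu0 : ∀ x ∈ O m, 0 ≤ u x)
include hu hu0

omit [NeZero m] in
lemma u_mem : u ∈ Cl C u :=
  ⟨hu0, fun _ hx _ hq => (min_le_right _ _).trans
    (mono_of_inc hu hx fun i => le_add_of_nonneg_right (hq i))⟩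

omit [NeZero m] in
lemma w_mem : w C u ∈ Cl C u := by
  refine ⟨fun x hx => le_csInf ⟨_, u, u_mem hu hu0, rfl⟩ ?_,
    fun x hx q hq => le_csInf ⟨_, u, u_mem hu hu0, rfl⟩ ?_⟩
  · rintro _ ⟨r, hr, rfl⟩
    exact hr.1 x hx
  · rintro _ ⟨r, hr, rfl⟩
    exact (min_le_min_right _ (by linarith [w_le hr hx])).trans (hr.2 x hx q hq)

include hC

lemma w_mono {x y : Fin m → ℝ} (hx : x ∈ O m) (h : x ≤ y) : w C u x ≤ w C u y := by
  have hq : y - x ∈ O m := fun i => sub_nonneg.2 (h i)
  have := (w_mem (C := C) hu hu0).2 x hx _ hq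
  rw [add_sub_cancel] at this
  exact (le_min (by linarith [g_nonneg hC hq]) (w_le (u_mem hu hu0) hx)).trans this

lemma w_up {a : Fin m → ℝ} {y : Fin m → ℝ} (hy : y ∈ O m) :
    w C u y ≤ max (w C u a) 0 + univ.sup' univ_nonempty (G C a y) := by
  have upd : ∀ {y : Fin m → ℝ}, y ∈ O m → ∀ i, a i ≤ y i → Function.update y i (y i - a i) ∈ O m := by
    intro y hy i hi j
    by_cases e : j = i
    · subst e; simpa using hi
    · simpa [e] using hy j
  have G0 : ∀ {y : Fin m → ℝ}, y ∈ O m → ∀ i, 0 ≤ G C a y i := by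
    intro y hy i
    unfold G; split_ifs with h
    · exact g_nonneg hC (upd hy i h)
    · exact le_rfl
  have S0 : ∀ {y : Fin m → ℝ}, y ∈ O m → 0 ≤ univ.sup' univ_nonempty (G C a y) := fun hy =>
    (G0 hy 0).trans (Finset.le_sup' _ (Finset.mem_univ 0))
  have hw := w_mem (C := C) hu hu0
  have hv : (fun y => min (w C u y) (max (w C u a) 0 + univ.sup' univ_nonempty (G C a y))) ∈ Cl C u := by
    refine ⟨fun x hx => le_min (hw.1 x hx) (add_nonneg (le_max_right _ _) (S0 hx)),
      fun x hx q hq => le_min ?_ ?_⟩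
    · exact (min_le_min_right _ (by linarith [min_le_left (w C u x) (max (w C u a) 0 + univ.sup' univ_nonempty (G C a x))])).trans (hw.2 x hx q hq)
    by_cases h1 : ∃ i, a i ≤ x i
    · obtain ⟨i0, hi0⟩ := h1
      have key : ∀ i, a i ≤ x i → G C a x i + g C q ≤ univ.sup' univ_nonempty (G C a (x + q)) := by
        intro i hi
        refine le_trans ?_ (Finset.le_sup' _ (Finset.mem_univ i))
        unfold G
        rw [if_pos hi, if_pos (show a i ≤ (x + q) i from hi.trans (le_add_of_nonneg_right (hq i)))]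
        refine (g_add hC (upd hx i hi) hq).trans (le_of_eq ?_)
        congr 1; funext j
        by_cases e : j = i
        · subst e; simp; ring
        · simp [e]
      have : univ.sup' univ_nonempty (G C a x) ≤ univ.sup' univ_nonempty (G C a (x + q)) - g C q := by
        refine Finset.sup'_le _ _ fun i _ => ?_
        by_cases hi : a i ≤ x i
        · linarith [key i hi]
        · have : G C a x i = 0 := by unfold G; rw [if_neg hi]
          linarith [key i0 hi0, G0 hx i0]
      refine (min_le_left _ _).trans ?_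
      linarith [min_le_right (w C u x) (max (w C u a) 0 + univ.sup' univ_nonempty (G C a x))]
    push Not at h1
    have hmin : min (min (w C u x) (max (w C u a) 0 + univ.sup' univ_nonempty (G C a x)) + g C q) (u x)
        ≤ min (w C u x + g C q) (u x) :=
      min_le_min_right _ (by linarith [min_le_left (w C u x) (max (w C u a) 0 + univ.sup' univ_nonempty (G C a x))])
    refine hmin.trans ?_
    by_cases h2 : ∃ i, a i < x i + q i
    swap
    · push Not at h2
      have := w_mono hC hu hu0 (O_add hx hq) (show x + q ≤ a from h2)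
      linarith [hw.2 x hx q hq, le_max_left (w C u a) 0, S0 (O_add hx hq)]
    obtain ⟨i, hi, hmin⟩ := (univ.filter fun i => a i < x i + q i).exists_min_image
      (fun i => (a i - x i) / q i) (by obtain ⟨i, hi⟩ := h2; exact ⟨i, by simp [hi]⟩)
    have hi' : a i < x i + q i := by simpa using hi
    have hqi : 0 < q i := by linarith [h1 i]
    set s := (a i - x i) / q i with hs
    have hs0 : 0 ≤ s := div_nonneg (by linarith [h1 i]) hqi.le
    have hs1 : s ≤ 1 := by rw [hs, div_le_one hqi]; linarith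
    have hsq : s • q ∈ O m := fun j => mul_nonneg hs0 (hq j)
    have hsq' : (1 - s) • q ∈ O m := fun j => mul_nonneg (by linarith) (hq j)
    have hle : x + s • q ≤ a := by
      intro j
      simp only [Pi.add_apply, Pi.smul_apply, smul_eq_mul]
      by_cases hj : a j < x j + q j
      · have hqj : 0 < q j := by linarith [h1 j]
        have := hmin j (by simp [hj])
        rw [le_div_iff₀ hqj] at this
        linarith
      · have := mul_le_mul_of_nonneg_right hs1 (hq j)
        linarith
    have b1 := (hw.2 x hx _ hsq).trans (w_mono hC hu hu0 (O_add hx hsq) hle)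
    have b2 : g C ((1 - s) • q) ≤ univ.sup' univ_nonempty (G C a (x + q)) := by
      refine le_trans ?_ (Finset.le_sup' _ (Finset.mem_univ i))
      unfold G
      rw [if_pos (show a i ≤ (x + q) i from hi'.le)]
      refine g_mono hC hsq' fun j => ?_
      by_cases e : j = i
      · subst e
        simp only [Pi.smul_apply, smul_eq_mul, Function.update_self, Pi.add_apply]
        rw [hs]; field_simp; ring_nf; exact le_rfl
      · simp only [Pi.smul_apply, smul_eq_mul, Function.update_of_ne e, Pi.add_apply]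
        nlinarith [hx j, mul_nonneg hs0 (hq j)]
    have b3 := g_smul hC hq hs0
    have b4 := g_smul hC hq (show 0 ≤ 1 - s by linarith)
    have b5 := g_nonneg hC hsq'
    have b6 := le_max_left (w C u a) 0
    rcases min_le_iff.1 b1 with h | h
    · exact (min_le_left _ _).trans (by linarith)
    · exact (min_le_right _ _).trans (by linarith)
  exact (w_le hv hy).trans (min_le_right _ _)

lemma w_cont : ContinuousOn (w C u) (O m) := by
  intro x hx
  rw [Metric.continuousWithinAt_iff]
  intro ε hε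
  set R : ℝ := ∑ i, (x i + 1) with hR
  have hR0 : 0 ≤ R := Finset.sum_nonneg fun i _ => by linarith [hx i]
  set e : ℝ := ε / (2 * (R + 1)) with he
  have he0 : 0 < e := by positivity
  set K : ℝ := C / e ^ (m - 1) with hK
  have hK0 : 0 < K := by positivity
  have key : ∀ y ∈ O m, ∀ z ∈ O m, (∀ i, y i ≤ x i + 1) → (∀ i, y i - z i < ε / (2 * K)) →
      w C u y < w C u z + ε := by
    intro y hy z hz h1 h2
    have ha : y ⊓ z ∈ O m := fun i => le_inf (hy i) (hz i)
    have b1 := w_up hC hu hu0 (a := y ⊓ z) hy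
    rw [max_eq_left ((w_mem hu hu0).1 _ ha)] at b1
    have b2 := w_mono hC hu hu0 ha (inf_le_right : y ⊓ z ≤ z)
    have b3 : univ.sup' univ_nonempty (G C (y ⊓ z) y) < ε := by
      rw [Finset.sup'_lt_iff]
      intro i _
      unfold G
      rw [if_pos (show (y ⊓ z) i ≤ y i from inf_le_left)]
      have hm : Function.update y i (y i - (y ⊓ z) i) ∈ O m := by
        intro j
        by_cases e : j = i
        · subst e; simp
        · simpa [e] using hy j
      refine (g_le hm (P_mem hC i he0)).trans_lt ?_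
      have c1 : ∀ j, Function.update (fun _ => e) i K j * Function.update y i (y i - (y ⊓ z) i) j ≤
          (if j = i then K * (y i - (y ⊓ z) i) else 0) + e * (x j + 1) := by
        intro j
        by_cases h : j = i
        · subst h
          simp only [Function.update_self, if_true]
          have : 0 ≤ e * (x j + 1) := mul_nonneg he0.le (by linarith [hx j])
          linarith
        · simp only [Function.update_of_ne h, if_neg h, zero_add]
          exact mul_le_mul_of_nonneg_left (h1 j) he0.le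
      refine (Finset.sum_le_sum fun j _ => c1 j).trans_lt ?_
      rw [Finset.sum_add_distrib, ← Finset.mul_sum, ← hR]
      simp only [Finset.sum_ite_eq', Finset.mem_univ, if_true]
      have c2 : y i - (y ⊓ z) i < ε / (2 * K) := by
        have : (0 : ℝ) < ε / (2 * K) := by positivity
        have h3 := h2 i
        simp only [Pi.inf_apply]
        rcases min_cases (y i) (z i) with h | h <;> rw [h.1] <;> linarith
      have c3 : K * (y i - (y ⊓ z) i) < ε / 2 := by
        calc _ < K * (ε / (2 * K)) := mul_lt_mul_of_pos_left c2 hK0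
          _ = _ := by field_simp
      have c4 : e * R ≤ ε / 2 := by
        rw [he, div_mul_eq_mul_div, div_le_div_iff₀ (by positivity) (by positivity)]
        nlinarith
      linarith
    linarith
  refine ⟨min 1 (ε / (2 * K)), by positivity, fun y hy hd => ?_⟩
  have hd' : ∀ i, |y i - x i| < min 1 (ε / (2 * K)) := fun i =>
    (dist_le_pi_dist y x i).trans_lt hd
  have k1 := key y hy x hx (fun i => by linarith [(abs_lt.1 (hd' i)).2, min_le_left 1 (ε / (2 * K))])
    (fun i => by linarith [(abs_lt.1 (hd' i)).2, min_le_right 1 (ε / (2 * K))])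
  have k2 := key x hx y hy (fun i => by linarith)
    (fun i => by linarith [(abs_lt.1 (hd' i)).1, min_le_right 1 (ε / (2 * K))])
  rw [Real.dist_eq, abs_lt]
  constructor <;> linarith

end

theorem result (m : ℕ) (hm : 1 ≤ m) (u : (Fin m → ℝ) → ℝ) (hu0 : ∀ x ∈ O m, 0 ≤ u x) (hu : Inc u)
    (C : ℝ) (hC : 0 < C) :
    ∃ v : (Fin m → ℝ) → ℝ, ContinuousOn v (O m) ∧ Inc v ∧ (∀ x ∈ O m, 0 ≤ v x ∧ v x ≤ u x) ∧
      ∀ x ∈ O m, ∀ D : (Fin m → ℝ) →L[ℝ] ℝ, HasFDerivWithinAt v D (O m) x → v x ≠ u x →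
        C ≤ ∏ i, D (Pi.single i 1) := by
  haveI : NeZero m := ⟨by omega⟩
  have hw := w_mem (C := C) hu hu0
  refine ⟨w C u, w_cont hC hu hu0, fun x hx i t ht => w_mono hC hu hu0 hx fun j => ?_,
    fun x hx => ⟨hw.1 x hx, w_le (u_mem hu hu0) hx⟩, fun x hx D hD hne => ?_⟩
  · by_cases e : j = i
    · subst e; simpa using ht
    · simp [e]
  have hlt : w C u x < u x := lt_of_le_of_ne (w_le (u_mem hu hu0) hx) hne
  refine prod_ge hC _ fun q hq => ?_
  have e : ∑ i, D (Pi.single i 1) * q i = D q := by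
    conv_rhs => rw [← Finset.univ_sum_single q, map_sum]
    refine Finset.sum_congr rfl fun i _ => ?_
    rw [show (Pi.single i (q i) : Fin m → ℝ) = q i • Pi.single i 1 by
      rw [← Pi.single_smul]; simp, map_smul, smul_eq_mul, mul_comm]
  rw [e]
  have hl : HasDerivWithinAt (fun s : ℝ => x + s • q) q (Set.Ioi 0) 0 := by
    simpa using (((hasDerivAt_id (0 : ℝ)).smul_const q).const_add x).hasDerivWithinAt
  have hc : HasDerivWithinAt (w C u ∘ fun s : ℝ => x + s • q) (D q) (Set.Ioi 0) 0 := by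
    refine HasFDerivWithinAt.comp_hasDerivWithinAt_of_eq (0 : ℝ) hD hl ?_ (by simp)
    intro s hs
    exact O_add hx fun j => mul_nonneg (le_of_lt hs) (hq j)
  rw [hasDerivWithinAt_iff_tendsto_slope' (by simp)] at hc
  refine ge_of_tendsto hc ?_
  have h1 : ∀ᶠ s in 𝓝 (0 : ℝ), w C u x + s * g C q < u x :=
    (by fun_prop : Continuous fun s : ℝ => w C u x + s * g C q).continuousAt.eventually_lt
      continuousAt_const (by simpa using hlt)
  filter_upwards [h1.filter_mono nhdsWithin_le_nhds, self_mem_nhdsWithin] with s hs hs0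
  have hs0 : 0 < s := hs0
  have h2 := hw.2 x hx (s • q) fun j => mul_nonneg hs0.le (hq j)
  have h3 := g_smul hC hq hs0.le
  have h4 : w C u x + s * g C q ≤ w C u (x + s • q) := (le_min (by linarith) hs.le).trans h2
  rw [slope_def_field, sub_zero, le_div_iff₀ hs0]
  simp only [Function.comp, zero_smul, add_zero]
  linarith

end Pool.Agent.Results.MP_b39627_an.Yes
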